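import Mathlib
import Pool.Agent.Lib.MP_d87a8f_pr.Q.Exact

/-!
The cutoff time of random directed Cayley graphs of arbitrary finite groups, in terms of the
degrees of the irreducible representations.
-/

namespace Pool.Agent.Results.MP_d87a8f_pr.DegreeTime

open Filter Topology Pool.Agent.Lib.MP_d87a8f_pr

/-- For every sequence of finite groups with `L = log |G|`, `k / L → ∞`, `log k / L → 0` and
`log (k / L) / log log L → ∞`, the walk has cutoff with high probability at the least `l` with
`|G| ≤ k ^ l` and `lowDim G d * l ^ l ≤ (k * d) ^ l` for all `d ≥ 1`. -/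
theorem result (G : ℕ → Type) [∀ n, Group (G n)] [∀ n, Fintype (G n)] [∀ n, DecidableEq (G n)]
    (k : ℕ → ℕ)
    (h1 : Tendsto (fun n => (k n : ℝ) / Real.log (Fintype.card (G n))) atTop atTop)
    (h2 : Tendsto (fun n => Real.log (k n) / Real.log (Fintype.card (G n))) atTop (𝓝 0))
    (h3 : Tendsto (fun n => Real.log ((k n : ℝ) / Real.log (Fintype.card (G n))) /
      Real.log (Real.log (Real.log (Fintype.card (G n))))) atTop atTop) :
    CutoffAt G k (fun n => (degTime 1 (G n) (k n) : ℝ)) :=
  Q.exact_cutoff G k h1 h2 h3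

end Pool.Agent.Results.MP_d87a8f_pr.DegreeTime
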