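import Mathlib
import Pool.Agent.Lib.MP_d87a8f_pr.Defs
import Pool.Agent.Lib.MP_d87a8f_pr.Asymp

/-!
A sequence of dihedral groups for which the walk is far from uniform at every constant multiple
of the conjectured cutoff time, for every choice of the generators.
-/

open Filter Topology
open Pool.Agent.Lib.MP_d87a8f_pr

theorem Pool.Agent.Results.MP_d87a8f_pr.Dihedral.result :
    ∃ n k : ℕ → ℕ,
      Tendsto (fun m => Fintype.card (DihedralGroup (n m + 1))) atTop atTop ∧
      Tendsto (fun m => Real.log (k m)) atTop atTop ∧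
      Tendsto (fun m => (k m : ℝ) / Real.log (Fintype.card (DihedralGroup (n m + 1))))
        atTop atTop ∧
      Tendsto (fun m => Real.log (k m) / Real.log (Fintype.card (DihedralGroup (n m + 1))))
        atTop (𝓝 0) ∧
      (∀ m, ∃ t : ℝ, 0 ≤ t ∧ (k m : ℝ) * poissonEntropy (t / k m) =
        Real.log (Nat.card (Abelianization (DihedralGroup (n m + 1))))) ∧
      ∀ t₀ : ℕ → ℝ, (∀ m, 0 ≤ t₀ m ∧ (k m : ℝ) * poissonEntropy (t₀ m / k m) =
          Real.log (Nat.card (Abelianization (DihedralGroup (n m + 1))))) →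
        ∀ C : ℝ, 0 < C → ∀ δ : ℝ, 0 < δ → ∀ᶠ m in atTop,
          ∀ Z : Fin (k m) → DihedralGroup (n m + 1),
            1 - δ ≤ tvDist Z (C * max (t₀ m)
              (Real.log (Fintype.card (DihedralGroup (n m + 1))) / Real.log (k m))) := by
  have hl2 : 0 < Real.log 2 := Real.log_pos one_lt_two
  have hM : Tendsto (fun m : ℕ => ((m + 3 : ℕ) : ℝ)) atTop atTop :=
    tendsto_natCast_atTop_atTop.comp (tendsto_add_atTop_nat 3)
  have hk8 : ∀ m : ℕ, 8 ≤ (m + 3) * 2 ^ (m + 3) := by
    intro m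
    have h1 : 2 ^ 3 ≤ 2 ^ (m + 3) := Nat.pow_le_pow_right two_pos (by omega)
    nlinarith
  refine ⟨fun m => 2 ^ (2 ^ (m + 3) - 1) - 1, fun m => (m + 3) * 2 ^ (m + 3), ?_, ?_, ?_, ?_, ?_,
    ?_⟩
  · simp only [card_eq]
    refine tendsto_atTop_mono (fun m => ?_) tendsto_id
    exact (Nat.le_add_right m 3).trans (Nat.lt_two_pow_self.le.trans Nat.lt_two_pow_self.le)
  · exact tendsto_atTop_mono (fun m => log_k_ge (M := m + 3) (by omega)) (hM.atTop_mul_const hl2)
  · simp only [log_card]
    refine (hM.atTop_div_const hl2).congr (fun m => ?_)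
    push_cast
    field_simp
  · simp only [log_card]
    have h1 := (tendsto_pow_const_div_const_pow_of_one_lt 1 (one_lt_two (α := ℝ))).comp
      (tendsto_add_atTop_nat 3)
    have h2 := h1.const_mul 2
    rw [mul_zero] at h2
    refine squeeze_zero (fun m => div_nonneg (Real.log_natCast_nonneg _) (by positivity))
      (fun m => ?_) h2
    rw [div_le_iff₀ (by positivity)]
    refine (log_k_le (M := m + 3) (by omega)).trans (le_of_eq ?_)
    simp only [Function.comp]
    field_simp
  · intro m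
    obtain ⟨t, ht, -, h⟩ := exists_entropic_time _ _ (hk8 m) Nat.card_pos
      (card_abelianization_le (2 ^ (2 ^ (m + 3) - 1) - 1 + 1))
    exact ⟨t, ht, h⟩
  · intro t₀ ht₀ C hC δ hδ
    filter_upwards [(tendsto_add_atTop_nat 3).eventually (tv_eventually hC hδ)] with m hm Z
    exact hm _ (ht₀ m).1 (entropic_time_le _ _ (hk8 m) Nat.card_pos
      (card_abelianization_le (2 ^ (2 ^ (m + 3) - 1) - 1 + 1)) (ht₀ m).1 (ht₀ m).2) Z
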