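import Mathlib
import Pool.Agent.Lib.MP_d87a8f_pr.U.Main

/-!
Universal cutoff for random directed Cayley graphs of arbitrary finite groups.
-/

namespace Pool.Agent.Results.MP_d87a8f_pr.UniversalCutoff

open Filter Topology Pool.Agent.Lib.MP_d87a8f_pr

/-- For every sequence of finite groups with `k / log |G| → ∞` and `log k / log |G| → 0`, the walk
has cutoff with high probability at `τ` exactly when `τ` is asymptotically equivalent to the
deterministic time `cutTime`; in particular it has cutoff at `cutTime`. -/
theorem result (G : ℕ → Type) [∀ n, Group (G n)] [∀ n, Fintype (G n)] [∀ n, DecidableEq (G n)]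
    (k : ℕ → ℕ)
    (h1 : Tendsto (fun n => (k n : ℝ) / Real.log (Fintype.card (G n))) atTop atTop)
    (h2 : Tendsto (fun n => Real.log (k n) / Real.log (Fintype.card (G n))) atTop (𝓝 0))
    (τ : ℕ → ℝ) (hτ : ∀ n, 0 ≤ τ n) :
    CutoffAt G k τ ↔
      Asymptotics.IsEquivalent atTop τ (fun n => (cutTime (G n) (k n) : ℝ)) :=
  U.universal_cutoff G k h1 h2 τ hτ

end Pool.Agent.Results.MP_d87a8f_pr.UniversalCutoff
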